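import Mathlib

/-!
# MP_f0f309_al: a skew-symmetric matrix without a parity-admissible linear ordering
-/

set_option autoImplicit false

namespace Pool.Agent.Results.MP_f0f309_al.NoOrdering

open Finset

/-- `B D` is skew-symmetric for some diagonal matrix `D` with positive integer entries. -/
def SkewSymmetrizable {n : ℕ} (B : Matrix (Fin n) (Fin n) ℤ) : Prop :=
  ∃ d : Fin n → ℤ, (∀ i, 0 < d i) ∧
    (B * Matrix.diagonal d).transpose = -(B * Matrix.diagonal d)

open Classical in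
/-- The GIM determined by the relation `r` (read `i ≺ j` for `r i j`). -/
noncomputable def gim {n : ℕ} (B : Matrix (Fin n) (Fin n) ℤ) (r : Fin n → Fin n → Prop) :
    Matrix (Fin n) (Fin n) ℤ :=
  Matrix.of fun i j => if i = j then 2 else if r i j then B i j else -B i j

/-- A chordless cycle `(c_0, …, c_{k+2}, c_0)` of length `k + 3`: the `c_j` are pairwise distinct,
and for `j ≠ l` one has `b_{c_j c_l} ≠ 0` exactly when `j, l` are cyclically adjacent (the addition
in `Fin (k + 3)` is modulo `k + 3`). -/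
def ChordlessCycle {n k : ℕ} (B : Matrix (Fin n) (Fin n) ℤ) (c : Fin (k + 3) → Fin n) : Prop :=
  Function.Injective c ∧ ∀ j l, j ≠ l → (B (c j) (c l) ≠ 0 ↔ (l = j + 1 ∨ j = l + 1))

/-- The cycle is oriented: all `b_{c_j c_{j+1}}` have the same sign. -/
def Oriented {n k : ℕ} (B : Matrix (Fin n) (Fin n) ℤ) (c : Fin (k + 3) → Fin n) : Prop :=
  (∀ j, 0 < B (c j) (c (j + 1))) ∨ (∀ j, B (c j) (c (j + 1)) < 0)

open Classical in
/-- The number of positive entries `a_{c_j c_{j+1}}` along the cycle. -/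
noncomputable def numPos {n k : ℕ} (A : Matrix (Fin n) (Fin n) ℤ) (c : Fin (k + 3) → Fin n) : ℕ :=
  (univ.filter fun j => 0 < A (c j) (c (j + 1))).card

/-- The matrix. -/
def B8 : Matrix (Fin 8) (Fin 8) ℤ :=
  !![0, 1, 0, 1, 1, 0, -1, -1;
    -1, 0, -1, -1, 1, -1, 1, 1;
    0, 1, 0, 1, -1, 1, -1, 1;
    -1, 1, -1, 0, -1, 1, -1, -1;
    -1, -1, 1, 1, 0, -1, 1, 0;
    0, 1, -1, -1, 1, 0, -1, 1;
    1, -1, 1, 1, -1, 1, 0, -1;
    1, -1, -1, 1, 0, -1, 1, 0]

/-- positions -/
noncomputable def pos (r : Fin 8 → Fin 8 → Prop) (a : Fin 8) : ℕ := by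
  classical exact (univ.filter fun b => r b a).card

theorem pos_lt {r : Fin 8 → Fin 8 → Prop} (hr : IsStrictTotalOrder (Fin 8) r) {a b : Fin 8}
    (h : r a b) : pos r a < pos r b := by
  classical
  unfold pos
  refine Finset.card_lt_card ?_
  rw [Finset.ssubset_iff_of_subset]
  · refine ⟨a, by simpa using h, ?_⟩
    simpa using irrefl_of r a
  · intro x hx
    simp only [mem_filter, mem_univ, true_and] at hx ⊢
    exact trans_of r hx h

theorem pos_iff {r : Fin 8 → Fin 8 → Prop} (hr : IsStrictTotalOrder (Fin 8) r) (a b : Fin 8) :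
    r a b ↔ pos r a < pos r b := by
  refine ⟨pos_lt hr, fun h => ?_⟩
  rcases trichotomous_of r a b with h1 | h1 | h1
  · exact h1
  · subst h1
    exact absurd h (lt_irrefl _)
  · exact absurd (pos_lt hr h1) (by omega)

theorem pos_inj {r : Fin 8 → Fin 8 → Prop} (hr : IsStrictTotalOrder (Fin 8) r) {a b : Fin 8}
    (h : a ≠ b) : pos r a ≠ pos r b := by
  rcases trichotomous_of r a b with h1 | h1 | h1
  · exact (pos_lt hr h1).ne
  · exact absurd h1 h
  · exact (pos_lt hr h1).ne'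

theorem gim_pos {r : Fin 8 → Fin 8 → Prop} (a b : Fin 8) (hab : a ≠ b) (hB : B8 a b = -1) :
    0 < gim B8 r a b ↔ ¬ r a b := by
  simp only [gim, Matrix.of_apply, if_neg hab, hB]
  split_ifs with h <;> simp [h]

/-- three numbers in cyclic order -/
def Cyc (x y z : ℕ) : Prop := (x < y ∧ y < z) ∨ (y < z ∧ z < x) ∨ (z < x ∧ x < y)

theorem tri {r : Fin 8 → Fin 8 → Prop} (hr : IsStrictTotalOrder (Fin 8) r)
    (H : ∀ (k : ℕ) (c : Fin (k + 3) → Fin 8), ChordlessCycle B8 c → Oriented B8 c →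
      Odd (numPos (gim B8 r) c)) (x y z : Fin 8)
    (h : x ≠ y ∧ y ≠ z ∧ z ≠ x ∧ B8 x y = -1 ∧ B8 y z = -1 ∧ B8 z x = -1 ∧ B8 y x ≠ 0 ∧
      B8 z y ≠ 0 ∧ B8 x z ≠ 0) : Cyc (pos r x) (pos r y) (pos r z) := by
  classical
  obtain ⟨h1, h2, h3, b1, b2, b3, c1, c2, c3⟩ := h
  have hodd := H 0 ![x, y, z] (by
    refine ⟨?_, ?_⟩
    · intro i j hij
      fin_cases i <;> fin_cases j <;> simp at hij ⊢
      · exact h1 hij
      · exact h3 hij.symm
      · exact h1 hij.symm
      · exact h2 hij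
      · exact h3 hij
      · exact h2 hij.symm
    · intro j l hjl
      fin_cases j <;> fin_cases l <;> simp at hjl ⊢
      · rw [b1]; decide
      · exact c3
      · exact c1
      · rw [b2]; decide
      · rw [b3]; decide
      · exact c2) (by
    right
    intro j
    fin_cases j
    · show B8 x y < 0
      rw [b1]; decide
    · show B8 y z < 0
      rw [b2]; decide
    · show B8 z x < 0
      rw [b3]; decide)
  have hn : numPos (gim B8 r) ![x, y, z] = (if r x y then 0 else 1) + (if r y z then 0 else 1) +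
      (if r z x then 0 else 1) := by
    unfold numPos
    rw [Finset.card_filter, Fin.sum_univ_three]
    have e1 := gim_pos (r := r) x y h1 b1
    have e2 := gim_pos (r := r) y z h2 b2
    have e3 := gim_pos (r := r) z x h3 b3
    change (if 0 < gim B8 r x y then 1 else 0) + (if 0 < gim B8 r y z then 1 else 0) +
      (if 0 < gim B8 r z x then 1 else 0) = _
    simp only [e1, e2, e3, ite_not]
  rw [hn] at hodd
  have n1 := pos_inj hr h1
  have n2 := pos_inj hr h2
  have n3 := pos_inj hr h3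
  rw [pos_iff hr x y, pos_iff hr y z, pos_iff hr z x] at hodd
  obtain ⟨m, hm⟩ := hodd
  unfold Cyc
  split_ifs at hm <;> omega

/-- four numbers in cyclic order -/
def Cyc4 (x y z w : ℕ) : Prop :=
  (x < y ∧ y < z ∧ z < w) ∨ (y < z ∧ z < w ∧ w < x) ∨ (z < w ∧ w < x ∧ x < y) ∨
    (w < x ∧ x < y ∧ y < z)

/-- the parity condition for four numbers -/
def Par (x y z w : ℕ) : Prop := Cyc4 x y z w ∨ Cyc4 w z y x

theorem quad_cycle : ChordlessCycle (k := 1) B8 ![0, 7, 2, 4] := by
  unfold ChordlessCycle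
  decide

theorem quad_oriented : Oriented (k := 1) B8 ![0, 7, 2, 4] := by
  unfold Oriented
  decide

theorem quad_num (r : Fin 8 → Fin 8 → Prop) [DecidableRel r] :
    numPos (k := 1) (gim B8 r) ![0, 7, 2, 4] =
      (if r 0 7 then 0 else 1) + (if r 7 2 then 0 else 1) + (if r 2 4 then 0 else 1) +
      (if r 4 0 then 0 else 1) := by
  classical
  unfold numPos
  rw [Finset.card_filter, Fin.sum_univ_four]
  have e1 := gim_pos (r := r) 0 7 (by decide) (by decide)
  have e2 := gim_pos (r := r) 7 2 (by decide) (by decide)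
  have e3 := gim_pos (r := r) 2 4 (by decide) (by decide)
  have e4 := gim_pos (r := r) 4 0 (by decide) (by decide)
  change (if 0 < gim B8 r 0 7 then 1 else 0) + (if 0 < gim B8 r 7 2 then 1 else 0) +
    (if 0 < gim B8 r 2 4 then 1 else 0) + (if 0 < gim B8 r 4 0 then 1 else 0) = _
  simp only [e1, e2, e3, e4, ite_not]

theorem par_of_odd (x y z w : ℕ) (h1 : x ≠ y) (h2 : y ≠ z) (h3 : z ≠ w) (h4 : w ≠ x)
    (h : Odd ((if x < y then 0 else 1) + (if y < z then 0 else 1) + (if z < w then 0 else 1) +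
      (if w < x then 0 else 1))) : Par x y z w := by
  have g1 : ¬ x < y → y < x := by omega
  have g2 : ¬ y < z → z < y := by omega
  have g3 : ¬ z < w → w < z := by omega
  have g4 : ¬ w < x → x < w := by omega
  unfold Par Cyc4
  by_cases c1 : x < y <;> by_cases c2 : y < z <;> by_cases c3 : z < w <;> by_cases c4 : w < x <;>
    simp only [c1, c2, c3, c4, if_true, if_false] at h
  · exact absurd h (by decide)
  · exact Or.inl (Or.inl ⟨c1, c2, c3⟩)
  · exact Or.inl (Or.inr (Or.inr (Or.inr ⟨c4, c1, c2⟩)))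
  · exact absurd h (by decide)
  · exact Or.inl (Or.inr (Or.inr (Or.inl ⟨c3, c4, c1⟩)))
  · exact absurd h (by decide)
  · exact absurd h (by decide)
  · exact Or.inr (Or.inr (Or.inr (Or.inr ⟨g4 c4, g3 c3, g2 c2⟩)))
  · exact Or.inl (Or.inr (Or.inl ⟨c2, c3, c4⟩))
  · exact absurd h (by decide)
  · exact absurd h (by decide)
  · exact Or.inr (Or.inr (Or.inr (Or.inl ⟨g1 c1, g4 c4, g3 c3⟩)))
  · exact absurd h (by decide)
  · exact Or.inr (Or.inr (Or.inl ⟨g2 c2, g1 c1, g4 c4⟩))
  · exact Or.inr (Or.inl ⟨g3 c3, g2 c2, g1 c1⟩)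
  · exact absurd h (by decide)

theorem quad {r : Fin 8 → Fin 8 → Prop} (hr : IsStrictTotalOrder (Fin 8) r)
    (H : ∀ (k : ℕ) (c : Fin (k + 3) → Fin 8), ChordlessCycle B8 c → Oriented B8 c →
      Odd (numPos (gim B8 r) c)) : Par (pos r 0) (pos r 7) (pos r 2) (pos r 4) := by
  classical
  have hodd := H 1 ![0, 7, 2, 4] quad_cycle quad_oriented
  rw [quad_num] at hodd
  simp only [pos_iff hr] at hodd
  exact par_of_odd _ _ _ _ (pos_inj hr (by decide)) (pos_inj hr (by decide))
    (pos_inj hr (by decide)) (pos_inj hr (by decide)) (by convert hodd)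

/-- cutting the cyclic order at `t` -/
def rot (t x : ℕ) : ℕ := if x < t then x + 100 else x

theorem Cyc.rot {x y z : ℕ} (h : Cyc x y z) (t : ℕ) (hx : x < 100) (hy : y < 100) (hz : z < 100) :
    Cyc (rot t x) (rot t y) (rot t z) := by
  unfold Cyc at *
  unfold NoOrdering.rot
  split_ifs <;> omega

theorem Cyc4.rot {x y z w : ℕ} (h : Cyc4 x y z w) (t : ℕ) (hx : x < 100) (hy : y < 100)
    (hz : z < 100) (hw : w < 100) :
    Cyc4 (rot t x) (rot t y) (rot t z) (rot t w) := by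
  unfold Cyc4 at *
  unfold NoOrdering.rot
  split_ifs <;> omega

theorem Par.rot {x y z w : ℕ} (h : Par x y z w) (t : ℕ) (hx : x < 100) (hy : y < 100)
    (hz : z < 100) (hw : w < 100) : Par (rot t x) (rot t y) (rot t z) (rot t w) :=
  h.imp (fun h => h.rot t hx hy hz hw) (fun h => h.rot t hw hz hy hx)

theorem pos_bound (r : Fin 8 → Fin 8 → Prop) (a : Fin 8) : pos r a < 100 := by
  classical
  unfold pos
  refine lt_of_le_of_lt (Finset.card_le_univ _) ?_
  simp

theorem contra (a0 a1 a2 a3 a4 a5 a6 a7 : ℕ) (h0 : a4 < a0) (h1 : a4 < a1) (h2 : a4 < a2)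
    (h3 : a4 < a3) (h5 : a4 < a5) (h6 : a4 < a6) (h7 : a4 < a7)
    (t1 : Cyc a0 a6 a1) (t2 : Cyc a0 a6 a4) (t3 : Cyc a0 a7 a1) (t4 : Par a0 a7 a2 a4)
    (t5 : Cyc a1 a2 a4) (t6 : Cyc a1 a2 a6) (t7 : Cyc a1 a3 a4) (t8 : Cyc a1 a3 a7)
    (t9 : Cyc a2 a6 a7) (t10 : Cyc a3 a4 a5) (t11 : Cyc a3 a7 a5) (t12 : Cyc a4 a5 a6)
    (t13 : Cyc a5 a6 a7) : False := by
  have u2 : a0 < a6 := by unfold Cyc at t2; omega
  have u5 : a1 < a2 := by unfold Cyc at t5; omega
  have u7 : a1 < a3 := by unfold Cyc at t7; omega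
  have u10 : a5 < a3 := by unfold Cyc at t10; omega
  have u12 : a5 < a6 := by unfold Cyc at t12; omega
  have u4 : (a0 < a7 ∧ a7 < a2) ∨ (a7 < a0 ∧ a2 < a7) := by unfold Par Cyc4 at t4; omega
  have u1 : a6 < a1 ∨ a1 < a0 := by unfold Cyc at t1; omega
  have u8 : a3 < a7 ∨ a7 < a1 := by unfold Cyc at t8; omega
  have u6 : a2 < a6 ∨ a6 < a1 := by unfold Cyc at t6; omega
  have u11 : a7 < a5 ∨ a3 < a7 := by unfold Cyc at t11; omega
  have u13 : a6 < a7 ∨ a7 < a5 := by unfold Cyc at t13; omega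
  unfold Cyc at t3 t9
  omega

/-- There is a skew-symmetrizable (indeed skew-symmetric) integer `8 × 8` matrix `B` such that for
every linear ordering `≺` some oriented chordless cycle in `B` has an even number of positive
entries `a_{i_j i_{j+1}}`, where `A` is the GIM determined by `≺`. -/
theorem result : ∃ B : Matrix (Fin 8) (Fin 8) ℤ, SkewSymmetrizable B ∧
    ∀ r : Fin 8 → Fin 8 → Prop, IsStrictTotalOrder (Fin 8) r →
      ∃ (k : ℕ) (c : Fin (k + 3) → Fin 8), ChordlessCycle B c ∧ Oriented B c ∧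
        Even (numPos (gim B r) c) := by
  refine ⟨B8, ⟨fun _ => 1, fun _ => one_pos, ?_⟩, fun r hr => ?_⟩
  · have : Matrix.diagonal (fun _ : Fin 8 => (1 : ℤ)) = 1 := Matrix.diagonal_one
    rw [this, mul_one]
    decide
  · by_contra hcon
    have H : ∀ (k : ℕ) (c : Fin (k + 3) → Fin 8), ChordlessCycle B8 c → Oriented B8 c →
        Odd (numPos (gim B8 r) c) := by
      intro k c h1 h2
      by_contra h3
      exact hcon ⟨k, c, h1, h2, Nat.not_odd_iff_even.1 h3⟩
    have T : ∀ x y z : Fin 8, (x ≠ y ∧ y ≠ z ∧ z ≠ x ∧ B8 x y = -1 ∧ B8 y z = -1 ∧ B8 z x = -1 ∧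
        B8 y x ≠ 0 ∧ B8 z y ≠ 0 ∧ B8 x z ≠ 0) → Cyc (rot (pos r 4) (pos r x))
          (rot (pos r 4) (pos r y)) (rot (pos r 4) (pos r z)) := fun x y z h =>
      (tri hr H x y z h).rot _ (pos_bound r x) (pos_bound r y) (pos_bound r z)
    have M : ∀ x : Fin 8, x ≠ 4 → rot (pos r 4) (pos r 4) < rot (pos r 4) (pos r x) := by
      intro x hx
      have h1 := pos_inj hr hx
      have h2 := pos_bound r 4
      unfold rot
      split_ifs <;> omega
    exact contra _ _ _ _ _ _ _ _ (M 0 (by decide)) (M 1 (by decide)) (M 2 (by decide))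
      (M 3 (by decide)) (M 5 (by decide)) (M 6 (by decide)) (M 7 (by decide))
      (T 0 6 1 (by decide)) (T 0 6 4 (by decide)) (T 0 7 1 (by decide))
      ((quad hr H).rot _ (pos_bound r _) (pos_bound r _) (pos_bound r _) (pos_bound r _))
      (T 1 2 4 (by decide)) (T 1 2 6 (by decide)) (T 1 3 4 (by decide)) (T 1 3 7 (by decide))
      (T 2 6 7 (by decide)) (T 3 4 5 (by decide)) (T 3 7 5 (by decide)) (T 4 5 6 (by decide))
      (T 5 6 7 (by decide))

end Pool.Agent.Results.MP_f0f309_al.NoOrdering
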